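import Pool.Agent.Q187.FM.Rp

/-! The factorisation lemma. -/

set_option autoImplicit false

open TensorProduct

namespace Pool.Agent.Q187.FM

section
variable {Λ G H : Type} [Field Λ] [Group G] [Group H]

theorem exists_minimal {E : Type} [AddCommGroup E] [Module Λ E] [FiniteDimensional Λ E]
    (r : Representation Λ G E) (A : Submodule Λ E) (hA : ∀ g, ∀ v ∈ A, r g v ∈ A) (h0 : A ≠ ⊥) :
    ∃ W : Submodule Λ E, (∀ g, ∀ v ∈ W, r g v ∈ W) ∧ W ≤ A ∧ W ≠ ⊥ ∧
      ∀ W' : Submodule Λ E, (∀ g, ∀ v ∈ W', r g v ∈ W') → W' ≤ W → W' = ⊥ ∨ W' = W := by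
  classical
  have hex : ∃ n, ∃ W : Submodule Λ E, (∀ g, ∀ v ∈ W, r g v ∈ W) ∧ W ≤ A ∧ W ≠ ⊥ ∧
      Module.finrank Λ W = n := ⟨_, A, hA, le_rfl, h0, rfl⟩
  obtain ⟨W, h1, h2, h3, h4⟩ := Nat.find_spec hex
  refine ⟨W, h1, h2, h3, fun W' h5 h6 => ?_⟩
  by_cases h7 : W' = ⊥
  · exact Or.inl h7
  · right
    have h8 : Nat.find hex ≤ Module.finrank Λ W' :=
      Nat.find_min' hex ⟨W', h5, h6.trans h2, h7, rfl⟩
    exact Submodule.eq_of_le_of_finrank_le h6 (by omega)

/-- If `V` is irreducible and there is a nonzero map `T → V` equivariant for the kernel of the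
surjection `f : G → H`, then `V` is a quotient of `T ⊗ f^* S` for an irreducible representation `S`
of `H` with `f^* S` contained in `Hom(T, V)`. -/
theorem exists_factor {f : G →* H} (hf : Function.Surjective f) (T V : Rp Λ G)
    (hV : V.Irreducible) (u : T.V →ₗ[Λ] V.V) (hu : u ≠ 0)
    (hu' : ∀ n ∈ f.ker, ∀ t, u (T.r n t) = V.r n (u t)) :
    ∃ S : Rp Λ H, S.Irreducible ∧ (S.pull f).EmbedsIn (T.hom V) ∧
      V.QuotientOf (T.tensor (S.pull f)) := by
  -- the homomorphisms equivariant for the kernel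
  let W1 : Submodule Λ (T.V →ₗ[Λ] V.V) :=
    { carrier := {t | ∀ n ∈ f.ker, (T.r.linHom V.r) n t = t}
      add_mem' := fun ha hb n hn => by rw [map_add, ha n hn, hb n hn]
      zero_mem' := fun n _ => map_zero _
      smul_mem' := fun c t ht n hn => by rw [map_smul, ht n hn] }
  let r : Representation Λ G (T.V →ₗ[Λ] V.V) := T.r.linHom V.r
  have hW1 : ∀ g, ∀ v ∈ W1, r g v ∈ W1 := by
    intro g t ht n hn
    have h1 : g⁻¹ * n * g ∈ f.ker := by
      have := (inferInstance : f.ker.Normal).conj_mem n hn g⁻¹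
      rwa [inv_inv] at this
    have h2 : n * g = g * (g⁻¹ * n * g) := by group
    show r n (r g t) = r g t
    have h3 : r (g⁻¹ * n * g) t = t := ht _ h1
    rw [← Module.End.mul_apply, ← map_mul, h2, map_mul, Module.End.mul_apply, h3]
  have huW : u ∈ W1 := by
    intro n hn
    rw [Representation.linHom_apply]
    ext t
    rw [LinearMap.comp_apply, LinearMap.comp_apply, hu' _ (inv_mem hn), ← Module.End.mul_apply,
      ← map_mul, mul_inv_cancel, map_one, Module.End.one_apply]
  have hW10 : W1 ≠ ⊥ := fun h => hu (by rw [h] at huW; exact huW)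
  obtain ⟨W, hW, hWW1, hW0, hmin⟩ := exists_minimal r W1 hW1 hW10
  -- the action of `H`
  let s : H → G := Function.surjInv hf
  have hs : ∀ h, f (s h) = h := Function.surjInv_eq hf
  have hker : ∀ g k : G, f g = f k → ∀ w ∈ W, r g w = r k w := by
    intro g k hgk w hw
    have h1 : k⁻¹ * g ∈ f.ker := by
      rw [MonoidHom.mem_ker, map_mul, map_inv, hgk, inv_mul_cancel]
    have h2 : r (k⁻¹ * g) w = w := hWW1 hw (k⁻¹ * g) h1
    have h3 : g = k * (k⁻¹ * g) := by group
    rw [h3, map_mul, Module.End.mul_apply, h2]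
  let rS : Representation Λ H W :=
    { toFun := fun h => (r (s h)).restrict (hW (s h))
      map_one' := by
        apply LinearMap.ext
        intro w
        apply Subtype.ext
        show r (s 1) (w : T.V →ₗ[Λ] V.V) = w
        rw [hker (s 1) 1 (by rw [hs, map_one]) w w.2, map_one, Module.End.one_apply]
      map_mul' := fun h k => by
        apply LinearMap.ext
        intro w
        apply Subtype.ext
        show r (s (h * k)) (w : T.V →ₗ[Λ] V.V) = r (s h) (r (s k) w)
        rw [hker (s (h * k)) (s h * s k) (by rw [hs, map_mul, hs, hs]) w w.2, map_mul,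
          Module.End.mul_apply] }
  have hSr : ∀ g (w : W), ((rS (f g) w : W) : T.V →ₗ[Λ] V.V) = r g (w : T.V →ₗ[Λ] V.V) := by
    intro g w
    show r (s (f g)) (w : T.V →ₗ[Λ] V.V) = _
    exact hker _ _ (hs _) w w.2
  let S : Rp Λ H := { V := W, r := rS }
  refine ⟨S, ⟨?_, ?_⟩, ⟨W.subtype, Submodule.subtype_injective W, hSr⟩, ?_⟩
  · obtain ⟨w, hw, hw0⟩ := Submodule.exists_mem_ne_zero_of_ne_bot hW0
    exact ⟨(⟨w, hw⟩ : W), fun h => hw0 (congrArg Subtype.val h)⟩
  · intro (B : Submodule Λ W) hB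
    have hB' : ∀ g, ∀ v ∈ B.map W.subtype, r g v ∈ B.map W.subtype := by
      rintro g _ ⟨w, hw, rfl⟩
      exact ⟨rS (f g) w, hB (f g) w hw, hSr g w⟩
    rcases hmin _ hB' (Submodule.map_subtype_le W _) with h | h
    · left
      exact Submodule.map_injective_of_injective (Submodule.subtype_injective W)
        (h.trans (Submodule.map_bot _).symm)
    · right
      rw [eq_top_iff]
      intro (w : W) _
      have h1 : (w : T.V →ₗ[Λ] V.V) ∈ B.map W.subtype := by
        rw [h]
        exact w.2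
      obtain ⟨w', hw', h2⟩ := h1
      have h3 : w' = w := Subtype.ext h2
      rw [← h3]
      exact hw'
  · let B : T.V →ₗ[Λ] W →ₗ[Λ] V.V :=
      LinearMap.mk₂ Λ (fun t (w : W) => (w : T.V →ₗ[Λ] V.V) t)
        (fun t t' w => map_add _ _ _) (fun c t w => map_smul _ _ _)
        (fun t w w' => rfl) (fun c t w => rfl)
    have hequi : ∀ g (x : T.V ⊗[Λ] W), TensorProduct.lift B
        (TensorProduct.map (T.r g) (rS (f g)) x) = V.r g (TensorProduct.lift B x) := by
      intro g x
      induction x using TensorProduct.induction_on with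
      | zero => simp
      | tmul t w =>
        rw [TensorProduct.map_tmul, TensorProduct.lift.tmul, TensorProduct.lift.tmul]
        show ((rS (f g) w : W) : T.V →ₗ[Λ] V.V) (T.r g t) = V.r g ((w : T.V →ₗ[Λ] V.V) t)
        rw [hSr]
        show (T.r.linHom V.r) g (w : T.V →ₗ[Λ] V.V) (T.r g t) = _
        rw [Representation.linHom_apply, LinearMap.comp_apply, LinearMap.comp_apply,
          ← Module.End.mul_apply (T.r g⁻¹), ← map_mul, inv_mul_cancel, map_one,
          Module.End.one_apply]
      | add x y hx hy => rw [map_add, map_add, map_add, map_add, hx, hy]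
    have hst : V.Stable (LinearMap.range (TensorProduct.lift B)) := by
      rintro g _ ⟨x, rfl⟩
      exact ⟨_, hequi g x⟩
    have hsurj : Function.Surjective (TensorProduct.lift B) := by
      rcases hV.2 _ hst with h | h
      · exfalso
        obtain ⟨w, hw, hw0⟩ := Submodule.exists_mem_ne_zero_of_ne_bot hW0
        apply hw0
        ext t
        have h1 : TensorProduct.lift B (t ⊗ₜ[Λ] (⟨w, hw⟩ : W)) ∈
            LinearMap.range (TensorProduct.lift B) := ⟨_, rfl⟩
        rw [h] at h1
        exact h1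
      · exact LinearMap.range_eq_top.1 h
    exact ⟨TensorProduct.lift B, hsurj, hequi⟩

end

end Pool.Agent.Q187.FM
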