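import Mathlib

/-! Finite dimensional representations: subquotients, tensor products, a factorisation lemma. -/

set_option autoImplicit false

open TensorProduct

namespace Pool.Agent.Q187.FM

/-- A finite dimensional representation of the group `G`. -/
structure Rp (Λ G : Type) [Field Λ] [Group G] where
  /-- underlying space -/
  V : Type
  [acg : AddCommGroup V]
  [mod : Module Λ V]
  [fin : FiniteDimensional Λ V]
  /-- action -/
  r : Representation Λ G V

attribute [instance] Rp.acg Rp.mod Rp.fin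

section
variable {Λ G H : Type} [Field Λ] [Group G] [Group H]

/-- The pullback along `φ`. -/
def Rp.pull (φ : H →* G) (S : Rp Λ G) : Rp Λ H where
  V := S.V
  r := S.r.comp φ

/-- The tensor product. -/
noncomputable def Rp.tensor (S T : Rp Λ G) : Rp Λ G where
  V := S.V ⊗[Λ] T.V
  r := S.r.tprod T.r

/-- The representation on linear maps. -/
def Rp.hom (S T : Rp Λ G) : Rp Λ G where
  V := S.V →ₗ[Λ] T.V
  r := S.r.linHom T.r

/-- Stable subspaces. -/
def Rp.Stable (S : Rp Λ G) (A : Submodule Λ S.V) : Prop := ∀ g, ∀ v ∈ A, S.r g v ∈ A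

/-- `S` is isomorphic to a subrepresentation of `T`. -/
def Rp.EmbedsIn (S T : Rp Λ G) : Prop :=
  ∃ u : S.V →ₗ[Λ] T.V, Function.Injective u ∧ ∀ g v, u (S.r g v) = T.r g (u v)

/-- `S` is isomorphic to a quotient of `T`. -/
def Rp.QuotientOf (S T : Rp Λ G) : Prop :=
  ∃ u : T.V →ₗ[Λ] S.V, Function.Surjective u ∧ ∀ g v, u (T.r g v) = S.r g (u v)

/-- Intertwining maps. -/
def Rp.Map (S T : Rp Λ G) (u : S.V →ₗ[Λ] T.V) : Prop := ∀ g v, u (S.r g v) = T.r g (u v)

/-- `S` is the direct sum of `S₁` and `S₂`. -/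
def Rp.IsSum (S S₁ S₂ : Rp Λ G) : Prop :=
  ∃ (a : S₁.V →ₗ[Λ] S.V) (b : S₂.V →ₗ[Λ] S.V), S₁.Map S a ∧ S₂.Map S b ∧
    Function.Bijective fun p : S₁.V × S₂.V => a p.1 + b p.2

/-- `S` is a quotient of `T` as representation of the subgroup `N`. -/
def Rp.QuotientOn (N : Subgroup G) (S T : Rp Λ G) : Prop :=
  ∃ u : T.V →ₗ[Λ] S.V, Function.Surjective u ∧ ∀ n ∈ N, ∀ t, u (T.r n t) = S.r n (u t)

/-- Semisimple: every stable subspace has a stable complement. -/
def Rp.Semisimple (S : Rp Λ G) : Prop :=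
  ∀ A, S.Stable A → ∃ B, S.Stable B ∧ IsCompl A B

/-- Irreducible. -/
def Rp.Irreducible (S : Rp Λ G) : Prop := (∃ v : S.V, v ≠ 0) ∧ ∀ A, S.Stable A → A = ⊥ ∨ A = ⊤

theorem Rp.sub_one (S : Rp Λ G) (A : Submodule Λ S.V) (hA : S.Stable A) :
    (S.r 1).restrict (hA 1) = 1 := by ext v; simp

theorem Rp.sub_mul (S : Rp Λ G) (A : Submodule Λ S.V) (hA : S.Stable A) (g h : G) :
    (S.r (g * h)).restrict (hA (g * h)) = (S.r g).restrict (hA g) * (S.r h).restrict (hA h) := by
  ext v; simp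

/-- The subrepresentation on a stable subspace. -/
def Rp.sub (S : Rp Λ G) (A : Submodule Λ S.V) (hA : S.Stable A) : Rp Λ G where
  V := A
  r := {
    toFun := fun g => (S.r g).restrict (hA g)
    map_one' := S.sub_one A hA
    map_mul' := S.sub_mul A hA }

theorem Rp.isSum (S : Rp Λ G) (A B : Submodule Λ S.V) (hA : S.Stable A) (hB : S.Stable B)
    (h : IsCompl A B) : S.IsSum (S.sub A hA) (S.sub B hB) := by
  refine ⟨A.subtype, B.subtype, fun _ _ => rfl, fun _ _ => rfl, ?_⟩
  have h1 : (fun p : A × B => A.subtype p.1 + B.subtype p.2) =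
      fun p => Submodule.prodEquivOfIsCompl A B h p := by
    funext p
    simp
  exact h1 ▸ (Submodule.prodEquivOfIsCompl A B h).bijective

theorem Rp.sub_embeds (S : Rp Λ G) (A : Submodule Λ S.V) (hA : S.Stable A) :
    (S.sub A hA).EmbedsIn S := ⟨A.subtype, Submodule.subtype_injective A, fun _ _ => rfl⟩

theorem Rp.quo_one (S : Rp Λ G) (A : Submodule Λ S.V) (hA : S.Stable A) :
    A.mapQ A (S.r 1) (hA 1) = 1 := by
  apply LinearMap.ext
  intro v
  obtain ⟨w, rfl⟩ := Submodule.Quotient.mk_surjective A v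
  simp

theorem Rp.quo_mul (S : Rp Λ G) (A : Submodule Λ S.V) (hA : S.Stable A) (g h : G) :
    A.mapQ A (S.r (g * h)) (hA (g * h)) =
      A.mapQ A (S.r g) (hA g) * A.mapQ A (S.r h) (hA h) := by
  apply LinearMap.ext
  intro v
  obtain ⟨w, rfl⟩ := Submodule.Quotient.mk_surjective A v
  simp

/-- The quotient representation by a stable subspace. -/
def Rp.quo (S : Rp Λ G) (A : Submodule Λ S.V) (hA : S.Stable A) : Rp Λ G where
  V := S.V ⧸ A
  r := {
    toFun := fun g => A.mapQ A (S.r g) (hA g)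
    map_one' := S.quo_one A hA
    map_mul' := S.quo_mul A hA }

theorem Rp.quo_quotient (S : Rp Λ G) (A : Submodule Λ S.V) (hA : S.Stable A) :
    (S.quo A hA).QuotientOf S :=
  ⟨A.mkQ, Submodule.mkQ_surjective A, fun g v => by
    show A.mkQ (S.r g v) = A.mapQ A (S.r g) (hA g) (A.mkQ v)
    simp⟩

theorem Rp.Semisimple.sub {S : Rp Λ G} (h : S.Semisimple) (A : Submodule Λ S.V)
    (hA : S.Stable A) : (S.sub A hA).Semisimple := by
  intro C hC
  have hC' : S.Stable (C.map A.subtype) := by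
    rintro g _ ⟨c, hc, rfl⟩
    exact ⟨_, hC g c hc, rfl⟩
  obtain ⟨B, hB, hcb⟩ := h _ hC'
  refine ⟨B.comap A.subtype, fun g v hv => hB g _ hv, ?_, ?_⟩
  · rw [Submodule.disjoint_def]
    intro (x : A) (hx : x ∈ C) (hx' : (x : S.V) ∈ B)
    have h1 := Submodule.disjoint_def.1 hcb.disjoint (x : S.V) ⟨x, hx, rfl⟩ hx'
    exact Subtype.ext h1
  · rw [codisjoint_iff, eq_top_iff]
    intro (x : A) _
    have h1 : (x : S.V) ∈ C.map A.subtype ⊔ B := by
      rw [hcb.codisjoint.eq_top]
      trivial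
    obtain ⟨_, ⟨c, hc, rfl⟩, b, hb, hcb'⟩ := Submodule.mem_sup.1 h1
    have hbA : b ∈ A := by
      have : b = (x : S.V) - A.subtype c := by rw [← hcb']; abel
      rw [this]
      exact A.sub_mem x.2 c.2
    exact Submodule.mem_sup.2 ⟨c, hc, ⟨b, hbA⟩, hb, Subtype.ext hcb'⟩

theorem Rp.Semisimple.pull {S : Rp Λ G} (h : S.Semisimple) {φ : H →* G}
    (hφ : Function.Surjective φ) : (S.pull φ).Semisimple := by
  have key : ∀ A : Submodule Λ S.V, (S.pull φ).Stable A ↔ S.Stable A := by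
    intro A
    constructor
    · intro hA g v hv
      obtain ⟨k, rfl⟩ := hφ g
      exact hA k v hv
    · exact fun hA k v hv => hA (φ k) v hv
  intro A hA
  obtain ⟨B, hB, hc⟩ := h A ((key A).1 hA)
  exact ⟨B, (key B).2 hB, hc⟩

/-- A property that passes to internal direct sums and holds for irreducible
representations with `P` holds for semisimple ones with `P`. -/
theorem Rp.induction {P Q : Rp Λ G → Prop}
    (hP : ∀ (S : Rp Λ G) (A B : Submodule Λ S.V) (hA : S.Stable A), S.Stable B → IsCompl A B →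
      P S → P (S.sub A hA))
    (h0 : ∀ S : Rp Λ G, (∀ v : S.V, v = 0) → P S → Q S)
    (hsum : ∀ (S : Rp Λ G) (A B : Submodule Λ S.V) (hA : S.Stable A) (hB : S.Stable B),
      IsCompl A B → Q (S.sub A hA) → Q (S.sub B hB) → Q S)
    (hirr : ∀ S : Rp Λ G, S.Irreducible → P S → Q S) (S : Rp Λ G) (hs : S.Semisimple)
    (hPS : P S) : Q S := by
  obtain ⟨n, hn⟩ : ∃ n, Module.finrank Λ S.V = n := ⟨_, rfl⟩
  induction n using Nat.strong_induction_on generalizing S with
  | _ n ih =>
    by_cases hz : ∀ v : S.V, v = 0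
    · exact h0 S hz hPS
    push Not at hz
    by_cases hi : S.Irreducible
    · exact hirr S hi hPS
    have h1 : ∃ A, S.Stable A ∧ A ≠ ⊥ ∧ A ≠ ⊤ := by
      by_contra hc
      push Not at hc
      refine hi ⟨hz, fun A hA => ?_⟩
      by_cases h : A = ⊥
      · exact Or.inl h
      · exact Or.inr (hc A hA h)
    obtain ⟨A, hA, hA0, hA1⟩ := h1
    obtain ⟨B, hB, hAB⟩ := hs A hA
    have hBt : B ≠ ⊤ := by
      rintro rfl
      exact hA0 (by simpa using hAB.disjoint.eq_bot)
    have h2 : Module.finrank Λ A < n := by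
      rw [← hn]
      exact Submodule.finrank_lt hA1
    have h3 : Module.finrank Λ B < n := by
      rw [← hn]
      exact Submodule.finrank_lt hBt
    exact hsum S A B hA hB hAB (ih _ h2 (S.sub A hA) (hs.sub A hA) (hP S A B hA hB hAB hPS) rfl)
      (ih _ h3 (S.sub B hB) (hs.sub B hB) (hP S B A hB hA hAB.symm hPS) rfl)

end

end Pool.Agent.Q187.FM
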